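import Pool.Agent.Helper54.SAW2.Stmts

set_option autoImplicit false

/-!
# Planar self-avoiding walks, second part: block 6 (InjAS, InjBS)
-/

namespace Pool.Agent.Helper16.SAW2

open Pool.Agent.Helper54.SAW2

theorem refl_self (x : ℕ → ℤ) (t : ℕ) : refl x t t = x t := by
  unfold Pool.Agent.Helper54.SAW2.refl
  rw [if_pos le_rfl]

theorem refl_le (x : ℕ → ℤ) {t i : ℕ} (h : i ≤ t) : refl x t i = x i := by
  unfold Pool.Agent.Helper54.SAW2.refl
  rw [if_pos h]

theorem refl_ge (x : ℕ → ℤ) {t i : ℕ} (h : t ≤ i) : refl x t i = 2 * x t - x i := by
  unfold Pool.Agent.Helper54.SAW2.refl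
  split_ifs with h1
  · have : i = t := le_antisymm h1 h
    rw [this]
    ring
  · rfl

theorem injA : InjAS := by
  classical
  intro x n s t c0 hst htn hRs hLs hRt hLt hc
  have hlt : x s < x t := hLs t hst htn
  unfold dA
  rw [refl_self, refl_self]
  set d := Nat.findGreatest (fun d => CutA (refl x s) s (x s - d)) (x s - c0).toNat with hd
  have hle : d ≤ (x s - c0).toNat := Nat.findGreatest_le _
  obtain ⟨e, he⟩ : ∃ e : ℕ, (e : ℤ) = x t - x s := ⟨(x t - x s).toNat, by omega⟩
  have key : CutA (refl x t) t (x t - ((d + e : ℕ) : ℤ)) := by
    rcases Nat.eq_zero_or_pos d with h0 | h0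
    · refine ⟨s, hst, ?_, ?_⟩
      · intro i hi
        rw [refl_le x (by omega)]
        have := hRs i hi
        push_cast
        omega
      · intro i hi hit
        rw [refl_le x hit]
        have := hLs i hi (by omega)
        push_cast
        omega
    · have hP : CutA (refl x s) s (x s - d) :=
        Nat.findGreatest_of_ne_zero (P := fun d => CutA (refl x s) s (x s - (d : ℤ)))
          hd.symm (by omega)
      obtain ⟨u, hu, h1, h2⟩ := hP
      refine ⟨u, by omega, ?_, ?_⟩
      · intro i hi
        have := h1 i hi
        rw [refl_le x (by omega)] at this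
        rw [refl_le x (by omega)]
        push_cast
        omega
      · intro i hi hit
        rw [refl_le x hit]
        rcases le_or_gt i s with his | his
        · have := h2 i hi his
          rw [refl_le x his] at this
          push_cast
          omega
        · have := hLs i his (by omega)
          push_cast
          omega
  have : d + e ≤ Nat.findGreatest (fun d => CutA (refl x t) t (x t - d)) (x t - c0).toNat :=
    Nat.le_findGreatest (P := fun d => CutA (refl x t) t (x t - (d : ℤ))) (by omega) key
  omega

theorem injB : InjBS := by
  classical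
  intro x n s t c0 hst htn hRs hLs hRt hLt hc
  have hlt : x s < x t := hLs t hst htn
  have htn' : t < n := by
    rcases Nat.lt_or_ge t n with h | h
    · exact h
    · have : n = t := le_antisymm h htn
      rw [this] at hc
      omega
  unfold dB
  rw [refl_self, refl_self, refl_ge x htn, refl_ge x (by omega : s ≤ n)]
  set d := Nat.findGreatest (fun d => CutB (refl x t) n t (x t - d))
    (x t - (2 * x t - x n) - c0).toNat with hd
  have hle : d ≤ (x t - (2 * x t - x n) - c0).toNat := Nat.findGreatest_le _
  obtain ⟨e, he⟩ : ∃ e : ℕ, (e : ℤ) = x t - x s := ⟨(x t - x s).toNat, by omega⟩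
  have key : ∃ k : ℕ, d < k ∧ k ≤ (x s - (2 * x s - x n) - c0).toNat ∧
      CutB (refl x s) n s (x s - (k : ℤ)) := by
    rcases Nat.eq_zero_or_pos d with h0 | h0
    · refine ⟨e + 1, by omega, by omega, t, hst.le, htn', ?_, ?_⟩
      · intro i hi hit
        rw [refl_ge x hi]
        have := hRt i hit
        push_cast
        omega
      · intro i hi hin
        rw [refl_ge x (by omega)]
        have := hLt i hi hin
        push_cast
        omega
    · have hP : CutB (refl x t) n t (x t - d) :=
        Nat.findGreatest_of_ne_zero (P := fun d => CutB (refl x t) n t (x t - (d : ℤ)))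
          hd.symm (by omega)
      obtain ⟨u, hu, hun, h1, h2⟩ := hP
      refine ⟨d + e, by omega, by omega, u, by omega, hun, ?_, ?_⟩
      · intro i hi hiu
        rw [refl_ge x hi]
        rcases le_or_gt t i with hti | hti
        · have := h1 i hti hiu
          rw [refl_ge x hti] at this
          push_cast
          omega
        · have := hRt i hti.le
          push_cast
          omega
      · intro i hi hin
        rw [refl_ge x (by omega)]
        have := h2 i hi hin
        rw [refl_ge x (by omega)] at this
        push_cast
        omega
  obtain ⟨k, h1, h2, h3⟩ := key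
  have : k ≤ Nat.findGreatest (fun d => CutB (refl x s) n s (x s - d))
      (x s - (2 * x s - x n) - c0).toNat :=
    Nat.le_findGreatest (P := fun d => CutB (refl x s) n s (x s - (d : ℤ))) h2 h3
  omega

end Pool.Agent.Helper16.SAW2
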